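import Mathlib
import Pool.Agent.V7H88.NF.H

/-!
# Central values of families of L-functions and the rotation on vertical lines

Let `D i`, `i` in an index set, be L-functions of degree `n` with the analytic properties known for the standard
L-functions of cuspidal representations (`IsStandard θ`, with one `θ < 1/2`), let `N i ≥ 1` be a size, and suppose
that the analytic conductor at the centre is at least `N i / C` and at most `C (N i)^k`.  For Q1: `π` is fixed, `i` runs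
over the square-free `D` of the ring of integers of `F`, `n = 2 [F : ℚ]`, the L-function is
`L(π ⊗ χ_D, s)` regarded as an Euler product over the rational primes, `N = |D|_{S_∞}` and `k = 2`.

The number `rot L σ t = -Re (L'/L)(σ + it)` is the speed with which the argument of `L` falls along the vertical line
`Re s = σ`, so that its integral over an interval is the fall of the argument.  All heights below are bounded.

* (A) (two-sided local law, unconditional) For all `β, h > 0` there are `c, H > 0` such that, if `N i` is large,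
  `|T| ≤ H₀` and `|L_i(1/2 + iT)| ≥ (N i)^β`, then on every line `Re s = σ`, `1/2 ≤ σ ≤ 1/2 + c`, the argument of `L_i`
  falls by more than `c log N i` over some window of length `h` at distance at most `H` from `T`.  Conversely, if the
  mean of `|rot L_i σ|` over `[T, T + 1]` exceeds `ε log N i` for some `σ ≥ 1/2 + δ`, then
  `|L_i(1/2 + it)| > (N i)^c` for some `t` with `|t - T| ≤ H`.
* (B) (law for means) If on one line `Re s = σ₀ ≥ 1/2` all windows of length `h` near `T` have mean rotation at most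
  `(q + η) log Q_i(T)`, then on every line `Re s = σ ≥ σ₀` the mean of `log |L_i|` over windows of length `h` near `T`
  is at most `(q (1 - σ)₊ + ε) log Q_i(T)`.
* (C) (zeros) If on one line `Re s = σ₀`, `1/2 ≤ σ₀ ≤ 1/2 + c/4`, all windows of length `h` near `T` have rotation at
  most `η log N i`, then `L_i` has at most `ε log N i` zeros with `Re s ≥ 1/2 + c`, `|Im s - T| ≤ 1`.
* (D) (criteria) The Lindelöf bound on bounded ranges of heights is equivalent to each of: for all `δ, ε > 0` the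
  mean of `|rot L_i σ|` over unit windows at bounded heights is at most `ε log N i` for `σ ≥ 1/2 + δ`; for ONE (for
  every) `h > 0`, arbitrarily near to the critical line there are lines on which the rotation over all windows of
  length `h` at bounded heights is at most `ε log N i` (a one-sided condition on signed integrals; always for
  `N i` large).  In particular the last condition implies the bound of Q1 for the central values.

Proof.  Comparison principle of Neumann type for the window means of `max(log |L|, -k)`, Jensen's formula in the mean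
and the local theorem of Backlund type of helper83; see the modules `V7H88.NF`.
-/

set_option autoImplicit false

open MeasureTheory

namespace Pool.Agent.V7H88.CR.CentralRotation

/-- The data of an L-function of degree `n` over the rationals: the arithmetic conductor `q`, the
archimedean parameters `μ j` (the gamma factor is `∏ j, Γ_ℝ(s + μ j)`), the Satake parameters `α p j` at the
primes `p` (some of them zero at ramified primes), the root number `w` and the completed L-function `Λ`. -/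
structure StdL (n : ℕ) where
  /-- the arithmetic conductor -/
  q : ℕ
  /-- the archimedean parameters -/
  μ : Fin n → ℂ
  /-- the Satake parameters -/
  α : ℕ → Fin n → ℂ
  /-- the root number -/
  w : ℂ
  /-- the completed L-function -/
  Λ : ℂ → ℂ

/-- The L-function `L(s) = Λ(s) q^{-s/2} ∏ j, Γ_ℝ(s + μ j)⁻¹`. -/
noncomputable def StdL.L {n : ℕ} (D : StdL n) (s : ℂ) : ℂ :=
  D.Λ s * ((D.q : ℂ) ^ (s / 2) * ∏ j, Complex.Gammaℝ (s + D.μ j))⁻¹

/-- The analytic conductor `Q(1/2 + it) = q ∏ j, (1 + |1/2 + it + μ j|)`. -/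
noncomputable def StdL.Q {n : ℕ} (D : StdL n) (t : ℝ) : ℝ :=
  D.q * ∏ j, (1 + ‖1 / 2 + (t : ℂ) * Complex.I + D.μ j‖)

/-- The analytic properties of the L-functions. -/
structure StdL.IsStandard {n : ℕ} (D : StdL n) (θ : ℝ) : Prop where
  /-- the conductor is positive -/
  q_pos : 0 < D.q
  /-- the root number has absolute value one -/
  w_norm : ‖D.w‖ = 1
  /-- the bound for the Satake parameters -/
  satake : ∀ p : ℕ, p.Prime → ∀ j, ‖D.α p j‖ ≤ (p : ℝ) ^ θ
  /-- the bound for the archimedean parameters -/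
  arch : ∀ j, -θ ≤ (D.μ j).re
  /-- the completed L-function is entire -/
  entire : Differentiable ℂ D.Λ
  /-- it is of finite order in vertical strips -/
  order : ∀ a b : ℝ, ∃ M : ℝ, ∀ s : ℂ, a ≤ s.re → s.re ≤ b → ‖D.Λ s‖ ≤ Real.exp (M * (1 + |s.im|))
  /-- the Euler product in the half plane `Re s > 1` -/
  euler : ∀ s : ℂ, 1 < s.re →
    HasProd (fun p : Nat.Primes => ∏ j, (1 - D.α p j * ((p : ℕ) : ℂ) ^ (-s))⁻¹) (D.L s)
  /-- there are no zeros in this half plane -/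
  ne_zero : ∀ s : ℂ, 1 < s.re → D.Λ s ≠ 0
  /-- the functional equation -/
  functional : ∀ s : ℂ, D.Λ s = D.w * (starRingEnd ℂ) (D.Λ (1 - (starRingEnd ℂ) s))

/-- A family of such L-functions, with a size comparable to the conductor. -/
structure Family {n : ℕ} {ι : Type*} (θ C k : ℝ) (D : ι → StdL n) (N : ι → ℝ) : Prop where
  /-- the analytic properties -/
  standard : ∀ i, (D i).IsStandard θ
  /-- the size -/
  one_le : ∀ i, 1 ≤ N i
  /-- the conductor is not small -/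
  lower : ∀ i, N i ≤ C * (D i).Q 0
  /-- the conductor is not large -/
  upper : ∀ i, (D i).Q 0 ≤ C * N i ^ k

variable {n : ℕ} {ι : Type*}

/-- The Lindelöf bound for the central values, as in Q1. -/
def CentralBound (D : ι → StdL n) (N : ι → ℝ) : Prop := ∀ β : ℝ, 0 < β → ∃ C X : ℝ, ∀ i, X ≤ N i →
  ‖(D i).L (1 / 2)‖ ≤ C * N i ^ β

/-- At most `x` zeros of `f` (with multiplicity) satisfy `Re s ≥ 1/2 + c`, `|Im s - T| ≤ 1`. -/
def FewZeros (f : ℂ → ℂ) (c T x : ℝ) : Prop := ∀ S : Finset ℂ,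
  (∀ s ∈ S, f s = 0 ∧ 1 / 2 + c ≤ s.re ∧ |s.im - T| ≤ 1) → ∑ s ∈ S, (analyticOrderNatAt f s : ℝ) ≤ x

/-- The Lindelöf bound on every bounded range of heights. -/
def LindelofBounded (D : ι → StdL n) (N : ι → ℝ) : Prop := ∀ β H : ℝ, 0 < β → 0 < H → ∃ X : ℝ, ∀ i, X ≤ N i →
  ∀ T : ℝ, |T| ≤ H → ‖(D i).L (1 / 2 + T * Complex.I)‖ ≤ N i ^ β

/-- The rotation `-Re (f'/f)(σ + it)` of `f` on the line `Re s = σ` (at the zeros of `f` on the line the value
is of no importance: the function has a continuous extension to the line). -/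
noncomputable def rot (f : ℂ → ℂ) (σ t : ℝ) : ℝ := -(logDeriv f (σ + t * Complex.I)).re

/-- On the line `Re s = σ` the rotation over all windows `[T, T + h]` at bounded heights is at most `ε log N i`,
for every `ε > 0` and `N i` large. -/
def Still (D : ι → StdL n) (N : ι → ℝ) (σ h : ℝ) : Prop := ∀ ε H : ℝ, 0 < ε → 0 < H → ∃ X : ℝ, ∀ i, X ≤ N i →
  ∀ T : ℝ, |T| ≤ H → ∫ t in T..(T + h), rot (D i).L σ t ≤ ε * Real.log (N i)

open Pool.Agent.V7H88.NF Pool.Agent.V7H83.CZ Pool.Agent.V7H89.GL Pool.Agent.W169.HF H353.E H353.F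

/-- the data in the form of the library -/
lemma dat_of (D : StdL n) {θ : ℝ} (hθ0 : 0 ≤ θ) (hθ : θ < 1 / 2) (H : D.IsStandard θ) :
    Dat θ (D.q : ℝ) (fun j => -D.μ j) (fun j p => D.α p j) D.w
      (fun s => D.Λ s * ((D.q : ℂ) ^ (s / 2))⁻¹) := by
  have hq : (1 : ℝ) ≤ D.q := by exact_mod_cast H.q_pos
  have hq0 : (D.q : ℂ) ≠ 0 := by
    have := H.q_pos
    exact_mod_cast this.ne'
  have hpow : ∀ s : ℂ, (D.q : ℂ) ^ (s / 2) ≠ 0 := fun s => by
    rw [Ne, Complex.cpow_eq_zero_iff]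
    exact fun h => hq0 h.1
  have hXX : ∀ s : ℂ, XX (D.q : ℝ) (fun s => D.Λ s * ((D.q : ℂ) ^ (s / 2))⁻¹) s = D.Λ s := fun s => by
    unfold XX
    rw [Complex.ofReal_natCast]
    field_simp [hpow s]
  refine ⟨⟨hq, fun j => ?_, fun j p hp => H.satake p hp j, H.w_norm, ?_, fun s hs => ?_, fun s => ?_,
    fun a b => ?_⟩, fun j => ?_, fun s hs => ?_⟩
  · have := H.arch j
    simp only [Complex.neg_re]
    linarith
  · refine H.entire.mul ?_
    have e : (fun s : ℂ => ((D.q : ℂ) ^ (s / 2))⁻¹) = fun s => (D.q : ℂ) ^ (-(s / 2)) := by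
      funext s
      rw [Complex.cpow_neg]
    rw [e]
    intro z
    exact ((((hasDerivAt_id z).div_const 2).neg).const_cpow (c := (D.q : ℂ)) (Or.inl hq0)).differentiableAt
  · have h1 := (H.euler s (by linarith)).tprod_eq
    rw [h1]
    unfold StdL.L
    have hne : ∏ j, Complex.Gammaℝ (s + D.μ j) ≠ 0 := by
      refine Finset.prod_ne_zero_iff.2 fun j _ => Complex.Gammaℝ_ne_zero_of_re_pos ?_
      have := H.arch j
      rw [Complex.add_re]
      linarith
    simp only [sub_neg_eq_add]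
    rw [mul_inv]
    field_simp [hpow s]
  · have h1 := H.functional s
    rw [h1, map_mul, map_inv₀]
    have h2 : (starRingEnd ℂ) ((D.q : ℂ) ^ ((1 - (starRingEnd ℂ) s) / 2)) = (D.q : ℂ) ^ ((1 - s) / 2) := by
      have := conj_cpow_real (N := (D.q : ℝ)) (by linarith) ((1 - (starRingEnd ℂ) s) / 2)
      rw [Complex.ofReal_natCast] at this
      rw [this]
      congr 1
      rw [map_div₀, map_sub, Complex.conj_conj, map_one, map_ofNat]
    rw [h2, Complex.ofReal_natCast]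
    have h3 : (D.q : ℂ) ^ (1 / 2 - s) * ((D.q : ℂ) ^ ((1 - s) / 2))⁻¹ = ((D.q : ℂ) ^ (s / 2))⁻¹ := by
      rw [← Complex.cpow_neg, ← Complex.cpow_neg, ← Complex.cpow_add _ _ hq0]
      congr 1
      ring
    rw [← h3]
    ring
  · obtain ⟨M, hM⟩ := H.order a b
    refine ⟨M + (|a| + |b|) * Real.log D.q, fun s h1 h2 => ?_⟩
    rw [norm_mul, norm_inv, Complex.norm_natCast_cpow_of_pos H.q_pos]
    have h3 := hM s h1 h2
    have hlog := Real.log_nonneg hq
    have hre : (s / 2).re = s.re / 2 := by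
      rw [show (2 : ℂ) = ((2 : ℝ) : ℂ) by norm_num, Complex.div_ofReal_re]
    rw [hre, ← Real.rpow_neg (by linarith), Real.rpow_def_of_pos (by linarith)]
    refine (mul_le_mul_of_nonneg_right h3 (Real.exp_pos _).le).trans ?_
    rw [← Real.exp_add]
    apply Real.exp_le_exp.2
    have h4 : -(s.re / 2) ≤ |a| + |b| := by
      have := neg_abs_le a
      have := abs_nonneg b
      have := abs_nonneg a
      linarith
    have h5 : Real.log D.q * -(s.re / 2) ≤ Real.log D.q * (|a| + |b|) := mul_le_mul_of_nonneg_left h4 hlog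
    have h6 : 0 ≤ (|a| + |b|) * Real.log D.q * |s.im| := by positivity
    nlinarith
  · have := H.arch j
    simp only [Complex.neg_re]
    linarith
  · rw [hXX]
    exact H.ne_zero s hs

lemma XX_eq (D : StdL n) (hq : 0 < D.q) :
    XX (D.q : ℝ) (fun s => D.Λ s * ((D.q : ℂ) ^ (s / 2))⁻¹) = D.Λ := by
  have hq0 : (D.q : ℂ) ≠ 0 := by exact_mod_cast hq.ne'
  funext s
  unfold XX
  have hpow : (D.q : ℂ) ^ (s / 2) ≠ 0 := by
    rw [Ne, Complex.cpow_eq_zero_iff]
    exact fun h => hq0 h.1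
  rw [Complex.ofReal_natCast]
  field_simp [hpow]

lemma LL_eq (D : StdL n) (hq : 0 < D.q) (s : ℂ) :
    LL (D.q : ℝ) (fun j => -D.μ j) (fun s => D.Λ s * ((D.q : ℂ) ^ (s / 2))⁻¹) s = D.L s := by
  unfold LL StdL.L gaf
  rw [XX_eq D hq]
  simp only [sub_neg_eq_add, Complex.ofReal_natCast]

lemma cq_eq (D : StdL n) (t : ℝ) : cq (D.q : ℝ) (fun j => -D.μ j) t = D.Q t := by
  unfold cq StdL.Q
  simp only [sub_neg_eq_add]

lemma mem_of (D : StdL n) {θ : ℝ} (hθ0 : 0 ≤ θ) (hθ : θ < 1 / 2) (H : D.IsStandard θ) : Mem θ n D.L D.Q :=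
  ⟨_, _, _, _, _, dat_of D hθ0 hθ H, funext fun s => (LL_eq D H.q_pos s).symm, funext fun t => (cq_eq D t).symm⟩

lemma fam_of {θ C k : ℝ} (hθ0 : 0 ≤ θ) (hθ : θ < 1 / 2) (hC : 1 ≤ C) (hk : 0 ≤ k) {D : ι → StdL n} {N : ι → ℝ}
    (h : Family θ C k D N) : Fam θ n (fun i => (D i).L) (fun i => (D i).Q) N C k :=
  ⟨fun i => mem_of (D i) hθ0 hθ (h.standard i), hC, hk, h.lower, h.upper, h.one_le⟩

lemma pt_eq (σ t : ℝ) : (σ + t * Complex.I : ℂ) = ⟨σ, t⟩ := by
  apply Complex.ext <;> simp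

lemma rot_eq (f : ℂ → ℂ) : rot f = Dl f := by
  funext σ t
  rw [rot, Dl, pt_eq]

lemma central_of {D : ι → StdL n} {N : ι → ℝ} (h : LindelofBounded D N) : CentralBound D N := by
  intro β hβ
  obtain ⟨X, hX⟩ := h β 1 hβ one_pos
  refine ⟨1, X, fun i hi => ?_⟩
  have := hX i hi 0 (by simp)
  simpa using this

theorem result (hn : 1 ≤ n) {θ C k : ℝ} (hθ0 : 0 ≤ θ) (hθ : θ < 1 / 2) (hC : 1 ≤ C) (hk : 0 ≤ k)
    (D : ι → StdL n) (N : ι → ℝ) (hD : Family θ C k D N) :
    -- the integrals exist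
    (∀ (i : ι) (σ a b : ℝ), IntervalIntegrable (rot (D i).L σ) volume a b) ∧
    -- (A) the local law, in both directions
    (∀ β h H₀ : ℝ, 0 < β → 0 < h → 0 ≤ H₀ → ∃ c H X : ℝ, 0 < c ∧ 0 < H ∧ ∀ i, X ≤ N i → ∀ T : ℝ, |T| ≤ H₀ →
      N i ^ β ≤ ‖(D i).L (1 / 2 + T * Complex.I)‖ → ∀ σ : ℝ, 1 / 2 ≤ σ → σ ≤ 1 / 2 + c →
        ∃ s : ℝ, |s - T| ≤ H ∧ c * Real.log (N i) < ∫ t in s..(s + h), rot (D i).L σ t) ∧
    (∀ δ B ε H₀ : ℝ, 0 < δ → 0 < ε → 0 ≤ H₀ → ∃ c H X : ℝ, 0 < c ∧ 0 < H ∧ ∀ i, X ≤ N i → ∀ T σ : ℝ, |T| ≤ H₀ →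
      1 / 2 + δ ≤ σ → σ ≤ B → ε * Real.log (N i) < ∫ t in T..(T + 1), |rot (D i).L σ t| →
        ∃ t : ℝ, |t - T| ≤ H ∧ N i ^ c < ‖(D i).L (1 / 2 + t * Complex.I)‖) ∧
    -- (B) the law for means
    (∀ h ε q V H₀ : ℝ, 0 < h → 0 < ε → 0 ≤ q → 0 ≤ V → 0 ≤ H₀ → ∃ η H X : ℝ, 0 < η ∧ 0 < H ∧ ∀ i, X ≤ N i →
      ∀ T σ₀ : ℝ, |T| ≤ H₀ → 1 / 2 ≤ σ₀ → σ₀ ≤ 1 →
      (∀ s : ℝ, |s - T| ≤ H → ∫ t in s..(s + h), rot (D i).L σ₀ t ≤ (q + η) * h * Real.log ((D i).Q T)) →
      ∀ σ t : ℝ, σ₀ ≤ σ → |t - T| ≤ V →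
        ∫ u in t..(t + h), Real.log ‖(D i).L (σ + u * Complex.I)‖ ≤
          (q * max (1 - σ) 0 + ε) * h * Real.log ((D i).Q T)) ∧
    -- (C) zeros
    (∀ h c ε H₀ : ℝ, 0 < h → 0 < c → c ≤ 1 → 0 < ε → 0 ≤ H₀ → ∃ η H X : ℝ, 0 < η ∧ 0 < H ∧ ∀ i, X ≤ N i →
      ∀ T σ₀ : ℝ, |T| ≤ H₀ → 1 / 2 ≤ σ₀ → σ₀ ≤ 1 / 2 + c / 4 →
      (∀ s : ℝ, |s - T| ≤ H → ∫ t in s..(s + h), rot (D i).L σ₀ t ≤ η * Real.log (N i)) →
        FewZeros (D i).L c T (ε * Real.log (N i))) ∧
    -- (D) criteria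
    (LindelofBounded D N ↔ ∀ δ B ε H : ℝ, 0 < δ → 0 < ε → 0 < H → ∃ X : ℝ, ∀ i, X ≤ N i → ∀ T σ : ℝ, |T| ≤ H →
      1 / 2 + δ ≤ σ → σ ≤ B → ∫ t in T..(T + 1), |rot (D i).L σ t| ≤ ε * Real.log (N i)) ∧
    (∀ h : ℝ, 0 < h → (LindelofBounded D N ↔ ∀ δ : ℝ, 0 < δ → ∃ σ : ℝ, 1 / 2 < σ ∧ σ ≤ 1 / 2 + δ ∧
      Still D N σ h)) ∧
    ((∃ h : ℝ, 0 < h ∧ ∀ δ : ℝ, 0 < δ → ∃ σ : ℝ, 1 / 2 ≤ σ ∧ σ ≤ 1 / 2 + δ ∧ Still D N σ h) →
      CentralBound D N) := by
  have F := fam_of hθ0 hθ hC hk hD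
  have hlN : ∀ i, 0 ≤ Real.log (N i) := fun i => Real.log_nonneg (F.one i)
  have hint : ∀ (i : ι) (σ a b : ℝ), IntervalIntegrable (rot (D i).L σ) volume a b := fun i σ a b => by
    rw [rot_eq]
    exact Dl_integrable hn hθ0 hθ (F.mem i) σ a b
  have habs : ∀ (i : ι) (σ T X : ℝ), 0 ≤ X →
      ∫⁻ t in Set.Icc T (T + 1), ENNReal.ofReal |Dl (D i).L σ t| ≤ ENNReal.ofReal X →
      ∫ t in T..(T + 1), |rot (D i).L σ t| ≤ X := by
    intro i σ T X hX h2
    have h3 := abs_int_le (g := fun t => |rot (D i).L σ t|) (a := T) (b := T + 1) (c := T) (d := T + 1)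
      (X := X) hX (hint i σ _ _).abs (by
        rw [Set.uIoc_of_le (by linarith)]
        exact Set.Ioc_subset_Icc_self) (by
        simp only [abs_abs, rot_eq]
        exact h2)
    exact (le_abs_self _).trans h3
  have hstill : ∀ σ h : ℝ, Still D N σ h ↔ RotB (fun i => (D i).L) N h σ := fun σ h => by
    unfold Still RotB
    simp only [rot_eq]
  have hlin : LindelofBounded D N ↔ LinB (fun i => (D i).L) N := Iff.rfl
  have hback : ∀ h : ℝ, 0 < h → (∀ δ : ℝ, 0 < δ → ∃ σ : ℝ, 1 / 2 ≤ σ ∧ σ ≤ 1 / 2 + δ ∧ Still D N σ h) →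
      LindelofBounded D N := by
    intro h hh H
    refine hlin.2 (crit_rot F hn hθ0 hθ hh fun δ hδ => ?_)
    obtain ⟨σ, h1, h2, h3⟩ := H δ hδ
    exact ⟨σ, h1, h2, (hstill σ h).1 h3⟩
  refine ⟨hint, ?_, ?_, ?_, ?_, ?_, ?_, ?_⟩
  · -- (A)
    intro β h H₀ hβ hh hH₀
    obtain ⟨c, H, X, hc, hH, -, H1⟩ := rot_law F hn hθ0 hθ hβ hh hH₀
    refine ⟨c, H, X, hc, hH, fun i hi T hT hbig σ h1 h2 => ?_⟩
    rw [rot_eq]
    exact H1 i hi T hT hbig σ h1 h2
  · -- (A), the converse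
    intro δ B ε H₀ hδ hε hH₀
    obtain ⟨c, H, X, hc, hH, -, H1⟩ := flat_law F hn hθ0 hθ (B := B) hδ hε hH₀
    refine ⟨c, H, X, hc, hH, fun i hi T σ hT h1 h2 hbig => ?_⟩
    by_contra hcon
    push Not at hcon
    have h3 := habs i σ T (ε * Real.log (N i)) (mul_nonneg hε.le (hlN i)) (H1 i hi T hT hcon σ h1 h2)
    linarith
  · -- (B)
    intro h ε q V H₀ hh hε hq hV hH₀
    obtain ⟨η, H, X, hη, hH, -, H1⟩ := mean_law F hn hθ0 hθ hh hε hq hV hH₀
    refine ⟨η, H, X, hη, hH, fun i hi T σ₀ hT h2 h3 hw σ t hσ ht => ?_⟩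
    rw [rot_eq] at hw
    have h4 := H1 i hi T hT σ₀ h2 h3 hw σ t hσ ht
    simp only [pt_eq]
    exact h4
  · -- (C)
    intro h c ε H₀ hh hc hc1 hε hH₀
    obtain ⟨η, H, X, hη, hH, -, H1⟩ := zeros_law F hn hθ0 hθ hh hc hc1 hε hH₀
    refine ⟨η, H, X, hη, hH, fun i hi T σ₀ hT h2 h3 hw S hS => ?_⟩
    rw [rot_eq] at hw
    exact H1 i hi T hT σ₀ h2 h3 hw S hS
  · -- (D), absolute values
    constructor
    · intro hL δ B ε H hδ hε hH
      obtain ⟨X, HX⟩ := flatB_of_lin F hn hθ0 hθ (hlin.1 hL) δ B ε H hδ hε hH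
      exact ⟨X, fun i hi T σ hT h1 h2 => habs i σ T _ (mul_nonneg hε.le (hlN i)) (HX i hi T σ hT h1 h2)⟩
    · intro hF
      refine hback 1 one_pos fun δ hδ => ⟨1 / 2 + δ, by linarith, le_rfl, fun ε H hε hH => ?_⟩
      obtain ⟨X, HX⟩ := hF δ (1 / 2 + δ) ε H hδ hε hH
      refine ⟨X, fun i hi T hT => ?_⟩
      refine le_trans ?_ (HX i hi T (1 / 2 + δ) hT le_rfl le_rfl)
      exact intervalIntegral.integral_mono_on (by linarith) (hint i _ _ _) (hint i _ _ _).abs
        fun t _ => le_abs_self _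
  · -- (D), signed
    intro h hh
    constructor
    · intro hL δ hδ
      refine ⟨1 / 2 + δ, by linarith, le_rfl, (hstill _ _).2 ?_⟩
      exact rotB_of_flat F hn hθ0 hθ (flatB_of_lin F hn hθ0 hθ (hlin.1 hL)) hh (by linarith)
    · intro H
      refine hback h hh fun δ hδ => ?_
      obtain ⟨σ, h1, h2, h3⟩ := H δ hδ
      exact ⟨σ, h1.le, h2, h3⟩
  · -- (D), central values
    rintro ⟨h, hh, H⟩
    exact central_of (hback h hh H)

end Pool.Agent.V7H88.CR.CentralRotation
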